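import Mathlib

set_option autoImplicit false

namespace Pool.Agent.MP_436a94_nt

/-- The numbers `a ^ 1, ..., a ^ n` are pairwise incongruent modulo `m`. -/
def Sep (a : ℤ) (n m : ℕ) : Prop :=
  ∀ i j : ℕ, 1 ≤ i → i ≤ n → 1 ≤ j → j ≤ n → a ^ i ≡ a ^ j [ZMOD (m : ℤ)] → i = j

/-- The least `m > 1` modulo which `a ^ 1, ..., a ^ n` are pairwise incongruent. -/
noncomputable def f (a : ℤ) (n : ℕ) : ℕ := sInf {m : ℕ | 1 < m ∧ Sep a n m}

end Pool.Agent.MP_436a94_nt
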